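import Mathlib
import Pool.Agent.SurfExact.Assembly

set_option autoImplicit false

namespace Pool.Agent.Results.MP_5bf54f_al.MinimalGrowth

open Pool.Agent.SurfGrowth Pool.Agent.SurfExact Finset

/-- The minimal exponential growth rate of the surface group of genus `g ≥ 2` is the unique real
number `x > 1` with `x^(2g) + 1 = (4g - 2)(x + x² + ⋯ + x^(2g-1))`. -/
theorem result (g : ℕ) (hg : 2 ≤ g) :
    ∃ x : ℝ, 1 < x ∧
      x ^ (2 * g) + 1 = (4 * (g : ℝ) - 2) * ∑ i ∈ Finset.Icc 1 (2 * g - 1), x ^ i ∧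
      (∀ y : ℝ, 1 < y →
        y ^ (2 * g) + 1 = (4 * (g : ℝ) - 2) * ∑ i ∈ Finset.Icc 1 (2 * g - 1), y ^ i → y = x) ∧
      minGrowth (SurfaceGroup g) = ENNReal.ofReal x := by
  have hsum : ∀ y : ℝ, ∑ i ∈ Finset.Icc 1 (2 * g - 1), y ^ i =
      ∑ i ∈ range (2 * g - 1), y ^ (i + 1) := by
    intro y
    rw [Finset.range_eq_Ico, Finset.sum_Ico_add' (fun i => y ^ i) 0 (2 * g - 1) 1]
    apply Finset.sum_congr _ (fun _ _ => rfl)
    ext i
    simp only [mem_Icc, mem_Ico]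
    omega
  obtain ⟨x, hx, hroot⟩ := exists_root (2 * g) (by omega)
  have hroot' : x ^ (2 * g) + 1 = (4 * (g : ℝ) - 2) * ∑ i ∈ range (2 * g - 1), x ^ (i + 1) := by
    rw [hroot]
    push_cast
    ring
  refine ⟨x, hx, by rw [hsum]; exact hroot', ?_, minGrowth_eq g hg x hx hroot'⟩
  intro y hy hy'
  rw [hsum] at hy'
  refine root_unique (2 * g) (by omega) y x hy hx ?_ hroot
  rw [hy']
  push_cast
  ring

end Pool.Agent.Results.MP_5bf54f_al.MinimalGrowth
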